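import Pool.Agent.H505R3.Asym8

/-!
The sieve of `Pool.Agent.H505R3.SquarePlusOne` for the arguments divisible by `8 q`, uniformly in `q`.
-/

set_option autoImplicit false

namespace Pool.Agent.N601.EV

open Finset Filter Pool.Agent.H505R2 Pool.Agent.H505R3

/-- `p` divides one of the three quadratics at `N = 8 q n` -/
def DQ (q p n : ℕ) : Prop :=
  (p : ℤ) ∣ (64 * (q : ℤ) ^ 2) * (n : ℤ) ^ 2 + 0 * n + 1 ∨
    (p : ℤ) ∣ (128 * (q : ℤ) ^ 2) * (n : ℤ) ^ 2 + (-(16 * (q : ℤ))) * n + 1 ∨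
    (p : ℤ) ∣ (128 * (q : ℤ) ^ 2) * (n : ℤ) ^ 2 + (16 * (q : ℤ)) * n + 1

instance (q p : ℕ) : DecidablePred (DQ q p) := fun n => by unfold DQ; infer_instance

lemma DQ_mod {q p n : ℕ} (h : DQ q p n) : DQ q p (n % p) := by
  rcases h with h | h | h
  · exact Or.inl ((quad_mod p _ _ _ n).2 h)
  · exact Or.inr (Or.inl ((quad_mod p _ _ _ n).2 h))
  · exact Or.inr (Or.inr ((quad_mod p _ _ _ n).2 h))

lemma not_one {p : ℕ} (hp : p.Prime) : ¬ (p : ℤ) ∣ 1 := by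
  intro h
  have h1 : p ∣ 1 := by exact_mod_cast h
  exact hp.one_lt.ne' (Nat.dvd_one.1 h1)

lemma DQ_zero {q p : ℕ} (hp : p.Prime) : ¬ DQ q p 0 := by
  intro h
  have h1 := not_one hp
  unfold DQ at h
  simp only [Nat.cast_zero, ne_eq, OfNat.ofNat_ne_zero, not_false_eq_true, zero_pow, mul_zero,
    add_zero, zero_add, or_self] at h
  exact h1 h

lemma DQ_dvd {q p n : ℕ} (hp : p.Prime) (hq : p ∣ q) : ¬ DQ q p n := by
  obtain ⟨m, rfl⟩ := hq
  have h1 := not_one hp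
  rintro (h | h | h)
  · apply h1
    have h2 : (p : ℤ) ∣ (64 * ((p * m : ℕ) : ℤ) ^ 2) * (n : ℤ) ^ 2 + 0 * n :=
      ⟨64 * p * m ^ 2 * n ^ 2, by push_cast; ring⟩
    exact (Int.dvd_add_right h2).1 h
  · apply h1
    have h2 : (p : ℤ) ∣ (128 * ((p * m : ℕ) : ℤ) ^ 2) * (n : ℤ) ^ 2 +
        (-(16 * ((p * m : ℕ) : ℤ))) * n :=
      ⟨128 * p * m ^ 2 * n ^ 2 - 16 * m * n, by push_cast; ring⟩
    exact (Int.dvd_add_right h2).1 h
  · apply h1
    have h2 : (p : ℤ) ∣ (128 * ((p * m : ℕ) : ℤ) ^ 2) * (n : ℤ) ^ 2 +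
        (16 * ((p * m : ℕ) : ℤ)) * n :=
      ⟨128 * p * m ^ 2 * n ^ 2 + 16 * m * n, by push_cast; ring⟩
    exact (Int.dvd_add_right h2).1 h

lemma not_dvd_lead {q p : ℕ} (hp : p.Prime) (h5 : 5 ≤ p) (hq : ¬ p ∣ q) (e : ℕ) :
    ¬ (p : ℤ) ∣ 2 ^ e * (q : ℤ) ^ 2 := by
  intro h
  rcases (Nat.prime_iff_prime_int.1 hp).dvd_or_dvd h with h | h
  · exact not_dvd_two_pow hp h5 e h
  · have h1 := (Nat.prime_iff_prime_int.1 hp).dvd_of_dvd_pow h
    exact hq (by exact_mod_cast h1)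

lemma DQ_card {q p : ℕ} (hp : p.Prime) (h5 : 5 ≤ p) : ((range p).filter (DQ q p)).card ≤ 6 := by
  by_cases hq : p ∣ q
  · have : (range p).filter (DQ q p) = ∅ := by
      rw [filter_eq_empty_iff]
      intro n _
      exact DQ_dvd hp hq
    rw [this]
    simp
  have h1 := roots_le_two p hp (64 * (q : ℤ) ^ 2) 0 1 (by
    have := not_dvd_lead hp h5 hq 6; norm_num at this; exact this)
  have h2 := roots_le_two p hp (128 * (q : ℤ) ^ 2) (-(16 * (q : ℤ))) 1 (by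
    have := not_dvd_lead hp h5 hq 7; norm_num at this; exact this)
  have h3 := roots_le_two p hp (128 * (q : ℤ) ^ 2) (16 * (q : ℤ)) 1 (by
    have := not_dvd_lead hp h5 hq 7; norm_num at this; exact this)
  have h4 : (range p).filter (DQ q p) ⊆
      (range p).filter (fun r : ℕ => (p : ℤ) ∣ (64 * (q : ℤ) ^ 2) * (r : ℤ) ^ 2 + 0 * r + 1) ∪
      ((range p).filter
        (fun r : ℕ => (p : ℤ) ∣ (128 * (q : ℤ) ^ 2) * (r : ℤ) ^ 2 + (-(16 * (q : ℤ))) * r + 1) ∪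
      (range p).filter
        (fun r : ℕ => (p : ℤ) ∣ (128 * (q : ℤ) ^ 2) * (r : ℤ) ^ 2 + (16 * (q : ℤ)) * r + 1)) := by
    intro r hr
    rw [mem_filter] at hr
    rw [mem_union, mem_union, mem_filter, mem_filter, mem_filter]
    rcases hr.2 with h | h | h
    · exact Or.inl ⟨hr.1, h⟩
    · exact Or.inr (Or.inl ⟨hr.1, h⟩)
    · exact Or.inr (Or.inr ⟨hr.1, h⟩)
  have h5 := (card_le_card h4).trans ((card_union_le _ _).trans
    (Nat.add_le_add_left (card_union_le _ _) _))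
  omega

lemma DQ_card5 (q : ℕ) : ((range 5).filter (DQ q 5)).card ≤ 4 := by
  have h : (range 5).filter (DQ q 5) ⊆ (range 5).erase 0 := by
    intro r hr
    rw [mem_filter] at hr
    rw [mem_erase]
    refine ⟨?_, hr.1⟩
    rintro rfl
    exact DQ_zero (by norm_num) hr.2
  exact (card_le_card h).trans (by decide)

theorem siftQ (q I : ℕ) (hI : 1 ≤ I) (k : ℕ) :
    (k : ℝ) * (Real.exp (-96) ^ I / 2) - (2 : ℝ) ^ (1292 * 2 ^ I)
      ≤ (((Ioc 0 k).filter (fun n => ∀ p ∈ S1 I, ¬ DQ q p n)).card : ℝ) := by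
  have h := sift_gen 3 (by norm_num) (S1 I) (fun p hp => (mem_S1.1 hp).2.2.1) (DQ q)
    (fun p _ n h => DQ_mod h) (by
      intro p hp
      obtain ⟨h5, -, hpp, h4⟩ := mem_S1.1 hp
      by_cases hp5 : p = 5
      · subst hp5
        have := DQ_card5 q
        omega
      · have h13 : 13 ≤ p := by
          by_contra hcon
          have h9 : p = 9 := by omega
          subst h9
          revert hpp
          norm_num
        have := DQ_card (q := q) hpp h5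
        omega) (by
      intro p hp
      obtain ⟨h5, -, hpp, h4⟩ := mem_S1.1 hp
      exact DQ_card hpp h5) I hI (fun p hp => (mem_S1.1 hp).2.1) k
  have e : (-(32 * ((3 : ℕ) : ℝ))) = -96 := by norm_num
  rw [e] at h
  exact h

/-- the two values are rough -/
theorem roughQ {q I k : ℕ} (hk : ∀ p ∈ S1 I, ¬ DQ q p k) :
    Rough (2 ^ 2 ^ I) ((8 * (q * k)) ^ 2 + 1) ∧
      Rough (2 ^ 2 ^ I) ((2 * (8 * (q * k)) ^ 2) ^ 2 + 1) := by
  have key : ∀ a : ℕ, Even a → (∀ p : ℕ, p.Prime → p ∣ a ^ 2 + 1 → DQ q p k) →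
      Rough (2 ^ 2 ^ I) (a ^ 2 + 1) := by
    intro a ha hD p hp hd
    by_contra hcon
    push Not at hcon
    have h2 : p ≠ 2 := by
      rintro rfl
      have h3 : Even (a ^ 2 + 1) := even_iff_two_dvd.2 hd
      have h4 : Odd (a ^ 2 + 1) := (ha.pow_of_ne_zero (by norm_num)).add_one
      exact (Nat.not_even_iff_odd.2 h4) h3
    have h4 := mod4_of_dvd hp hd h2
    have h5 : 5 ≤ p := by
      have := hp.two_le
      by_contra h5
      interval_cases p <;> omega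
    exact hk p (mem_S1.2 ⟨h5, hcon, hp, h4⟩) (hD p hp hd)
  constructor
  · apply key (8 * (q * k)) ⟨4 * (q * k), by ring⟩
    intro p hp hd
    left
    have h1 : (p : ℤ) ∣ (((8 * (q * k)) ^ 2 + 1 : ℕ) : ℤ) := by exact_mod_cast hd
    convert h1 using 1
    push_cast
    ring
  · apply key (2 * (8 * (q * k)) ^ 2) ⟨(8 * (q * k)) ^ 2, by ring⟩
    intro p hp hd
    right
    have h1 : (p : ℤ) ∣ (((2 * (8 * (q * k)) ^ 2) ^ 2 + 1 : ℕ) : ℤ) := by exact_mod_cast hd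
    have h2 : (((2 * (8 * (q * k)) ^ 2) ^ 2 + 1 : ℕ) : ℤ) =
        ((128 * (q : ℤ) ^ 2) * (k : ℤ) ^ 2 + (-(16 * (q : ℤ))) * k + 1) *
        ((128 * (q : ℤ) ^ 2) * (k : ℤ) ^ 2 + (16 * (q : ℤ)) * k + 1) := by push_cast; ring
    rw [h2] at h1
    exact (Nat.prime_iff_prime_int.1 hp).dvd_or_dvd h1

end Pool.Agent.N601.EV
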